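import Pool.Agent.helper32.NN.Spec

set_option autoImplicit false

open Submodule

noncomputable section

namespace Pool.Agent.NN

universe u v

theorem GEN (hT : TKP_stmt.{u, v}) (hP : PRS_stmt.{u, v}) (hF : FDI_stmt.{u, v}) : GEN_stmt.{u, v} := by
  intro K U _ _ _ A hA
  have h2 : ∀ S : Submodule K U, S ≤ A → S * S ≤ S → S ≠ A → ∃ k : ℕ, S ≤ TT A k := by
    intro S hS hSS hne
    obtain ⟨J, hJ, hSJ, n, hn⟩ := hP K U A hA S hS hSS hne
    have h3 : J ≤ TT A n := le_sSup (show J ∈ {J | IsId A J ∧ J ^ n = ⊥} from ⟨hJ, hn⟩)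
    exact ⟨n, hSJ.trans h3⟩
  refine ⟨?_, h2, ?_⟩
  · intro X hX
    constructor
    · intro h k hXk
      obtain ⟨hid, hne, -, -⟩ := hT K U A hA k
      apply hne
      refine h (TT A k) hid.1 ?_ hXk
      exact (mul_le_mul' hid.1 le_rfl).trans hid.2.1
    · intro h S hS hSS hXS
      by_contra hne
      obtain ⟨k, hk⟩ := h2 S hS hSS hne
      exact h k (fun x hx => hk (hXS hx))
  · intro a ha
    have h4 : span K {a} ≤ A := by
      rw [span_le, Set.singleton_subset_iff]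
      exact ha
    obtain ⟨J, hJ, hFJ, n, hn⟩ := hF K U A hA (span K {a}) h4 (fg_span_singleton a)
    have h3 : J ≤ TT A n := le_sSup (show J ∈ {J | IsId A J ∧ J ^ n = ⊥} from ⟨hJ, hn⟩)
    exact ⟨n, h3 (hFJ (mem_span_singleton_self a))⟩

end Pool.Agent.NN
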